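import Pool.Agent.T9lead.Cong.Base

/-! Good base points in every orbit, and the solution on the whole space. -/

set_option autoImplicit false

namespace Pool.Agent.T9lead.Cong

open FreeGroup List

/-- commuting generators of a free group are equal -/
lemma comm_gen {A : Type} (a b : A) (h : FreeGroup.of a * FreeGroup.of b = FreeGroup.of b * FreeGroup.of a) :
    a = b := by
  classical
  by_contra hab
  have h1 : FreeGroup.of a * FreeGroup.of b = FreeGroup.mk [(a, true), (b, true)] := rfl
  have h2 : FreeGroup.of b * FreeGroup.of a = FreeGroup.mk [(b, true), (a, true)] := rfl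
  rw [h1, h2] at h
  have h3 := congrArg FreeGroup.toWord h
  rw [toWord_mk, toWord_mk] at h3
  have e1 : reduce [(a, true), (b, true)] = [(a, true), (b, true)] := by
    apply IsReduced.reduce_eq; simp [FreeGroup.IsReduced]
  have e2 : reduce [(b, true), (a, true)] = [(b, true), (a, true)] := by
    apply IsReduced.reduce_eq; simp [FreeGroup.IsReduced]
  rw [e1, e2] at h3
  simp at h3
  exact hab h3.1

lemma all_pow {A : Type} [Subsingleton A] (a : A) (w : FreeGroup A) : ∃ k : ℤ, w = FreeGroup.of a ^ k := by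
  induction w using FreeGroup.induction_on with
  | C1 => exact ⟨0, by simp⟩
  | of x => exact ⟨1, by rw [Subsingleton.elim x a]; simp⟩
  | inv_of x _ => exact ⟨-1, by rw [Subsingleton.elim x a]; simp⟩
  | mul x y hx hy =>
    obtain ⟨k, hk⟩ := hx
    obtain ⟨l, hl⟩ := hy
    exact ⟨k + l, by rw [hk, hl, zpow_add]⟩

lemma cyclic_of_comm {α : Type} (H : Subgroup (FreeGroup α))
    (hH : ∀ a ∈ H, ∀ b ∈ H, a * b = b * a) : ∃ c ∈ H, ∀ w ∈ H, ∃ k : ℤ, w = c ^ k := by
  have : IsFreeGroup H := subgroupIsFreeOfIsFree H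
  let e : H ≃* FreeGroup (IsFreeGroup.Generators H) := IsFreeGroup.toFreeGroup H
  have hsub : Subsingleton (IsFreeGroup.Generators H) := by
    constructor
    intro a b
    apply comm_gen
    apply e.symm.injective
    rw [MulEquiv.map_mul e.symm, MulEquiv.map_mul e.symm]
    apply Subtype.ext
    exact hH _ (e.symm (FreeGroup.of a)).2 _ (e.symm (FreeGroup.of b)).2
  by_cases hne : Nonempty (IsFreeGroup.Generators H)
  · obtain ⟨a⟩ := hne
    refine ⟨(e.symm (FreeGroup.of a) : H), (e.symm (FreeGroup.of a)).2, ?_⟩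
    intro w hw
    obtain ⟨k, hk⟩ := all_pow a (e ⟨w, hw⟩)
    refine ⟨k, ?_⟩
    have h2 : (⟨w, hw⟩ : H) = (e.symm (FreeGroup.of a)) ^ k := by
      rw [← map_zpow, ← hk, e.symm_apply_apply]
    have h3 := congrArg (fun x : H => (x : FreeGroup α)) h2
    simpa using h3
  · refine ⟨1, H.one_mem, ?_⟩
    intro w hw
    refine ⟨0, ?_⟩
    rw [not_nonempty_iff] at hne
    have h1 : e ⟨w, hw⟩ = 1 := Subsingleton.elim _ _
    have h2 : (⟨w, hw⟩ : H) = 1 := by rw [← e.map_one] at h1; exact e.injective h1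
    have h3 := congrArg (fun x : H => (x : FreeGroup α)) h2
    simpa using h3

section
variable {α : Type} [DecidableEq α]

lemma cyc_of_append_self (L : List (α × Bool)) (h : FreeGroup.IsReduced (L ++ L)) :
    IsCyclicallyReduced L := by
  refine ⟨(List.isChain_append.1 h).1, ?_⟩
  unfold FreeGroup.IsReduced at h
  rw [List.isChain_append] at h
  exact h.2.2

lemma append_self_of_cyc (L : List (α × Bool)) (h : IsCyclicallyReduced L) :
    FreeGroup.IsReduced (L ++ L) := by
  have := (h.flatten_replicate 2).isReduced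
  simpa using this

lemma cyc_rotate (p q : List (α × Bool)) (h : IsCyclicallyReduced (p ++ q)) :
    IsCyclicallyReduced (q ++ p) := by
  apply cyc_of_append_self
  have := (h.flatten_replicate 3).isReduced
  have h2 : FreeGroup.IsReduced (p ++ ((q ++ p) ++ (q ++ p)) ++ q) := by simpa using this
  exact (List.isChain_append.1 (List.isChain_append.1 h2).1).2.1

lemma cyc_invRev (L : List (α × Bool)) (h : IsCyclicallyReduced L) :
    IsCyclicallyReduced (invRev L) := by
  apply cyc_of_append_self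
  have h1 := append_self_of_cyc L h
  rw [isReduced_iff_reduce_eq] at h1 ⊢
  have h2 : invRev L ++ invRev L = invRev (L ++ L) := by rw [invRev_append]
  rw [h2, reduce_invRev, h1]

end

lemma none_pow {N : Type} (L : List (Option N × Bool)) (h : ∀ l ∈ L, l.1 = none) :
    ∃ k : ℤ, FreeGroup.mk L = FreeGroup.of none ^ k := by
  induction L with
  | nil => exact ⟨0, by simp; rfl⟩
  | cons l L ih =>
    obtain ⟨k, hk⟩ := ih fun l' hl' => h l' (List.mem_cons_of_mem _ hl')
    have h0 := h l (List.mem_cons_self)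
    obtain ⟨a, ε⟩ := l
    simp only at h0
    subst h0
    have h1 : FreeGroup.mk ((none, ε) :: L) = FreeGroup.mk [((none : Option N), ε)] * FreeGroup.mk L := rfl
    cases ε with
    | true => exact ⟨1 + k, by rw [h1, hk, zpow_add, zpow_one]; rfl⟩
    | false => exact ⟨-1 + k, by rw [h1, hk, zpow_add, zpow_neg_one]; rfl⟩

section
variable {N I X : Type} [DecidableEq N] [MulAction (FreeGroup (Option N)) X]

theorem orbit_base (y : X)
    (hcomm : ∀ w w' : FreeGroup (Option N), w • y = y → w' • y = y → w * w' = w' * w)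
    (hh : ∀ k : ℤ, k ≠ 0 → ∀ x : X, (FreeGroup.of (none : Option N)) ^ k • x ≠ x) :
    ∃ y' ∈ MulAction.orbit (FreeGroup (Option N)) y, Free (N := N) y' ∨ Cyc (N := N) y' := by
  obtain ⟨c0, hc0, hgen⟩ := cyclic_of_comm (MulAction.stabilizer (FreeGroup (Option N)) y)
    (fun a ha b hb => hcomm a b ha hb)
  rw [MulAction.mem_stabilizer_iff] at hc0
  by_cases h1 : c0 = 1
  · refine ⟨y, MulAction.mem_orbit_self y, Or.inl ?_⟩
    intro w hw
    obtain ⟨k, hk⟩ := hgen w (MulAction.mem_stabilizer_iff.2 hw)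
    rw [hk, h1, one_zpow]
  -- a general step: conjugating the base point
  have step : ∀ g c : FreeGroup (Option N), c0 = g * c * g⁻¹ →
      ∀ w : FreeGroup (Option N), w • (g⁻¹ • y) = g⁻¹ • y ↔ ∃ k : ℤ, w = c ^ k := by
    intro g c hgc w
    have hcy : ∀ k : ℤ, c0 ^ k • y = y := by
      intro k
      have : c0 ∈ MulAction.stabilizer (FreeGroup (Option N)) y := MulAction.mem_stabilizer_iff.2 hc0
      exact MulAction.mem_stabilizer_iff.1 (Subgroup.zpow_mem _ this k)
    have hpow : ∀ k : ℤ, c0 ^ k = g * c ^ k * g⁻¹ := by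
      intro k; rw [hgc, conj_zpow]
    constructor
    · intro hw
      have : (g * w * g⁻¹) • y = y := by
        rw [mul_smul, mul_smul, hw, smul_inv_smul]
      obtain ⟨k, hk⟩ := hgen _ (MulAction.mem_stabilizer_iff.2 this)
      rw [hpow] at hk
      exact ⟨k, mul_left_cancel (mul_right_cancel hk)⟩
    · rintro ⟨k, rfl⟩
      have := hcy k
      rw [hpow, mul_smul, mul_smul] at this
      exact eq_inv_smul_iff.2 this
  set L := reduceCyclically c0.toWord with hL
  set g0 := FreeGroup.mk (reduceCyclically.conjugator c0.toWord) with hg0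
  have hcyc : IsCyclicallyReduced L := reduceCyclically.isCyclicallyReduced isReduced_toWord
  have hconj : c0 = g0 * FreeGroup.mk L * g0⁻¹ := by
    have := reduceCyclically.conj_conjugator_reduceCyclically c0.toWord
    have h2 := congrArg FreeGroup.mk this
    rw [mk_toWord, ← mul_mk, ← mul_mk, ← inv_mk] at h2
    exact h2.symm
  -- there is a letter different from `h`
  have hlet : ∃ v ε, (some v, ε) ∈ L := by
    by_contra hcon
    push Not at hcon
    obtain ⟨k, hk⟩ := none_pow L (by
      rintro ⟨a, ε⟩ hl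
      cases a with
      | none => rfl
      | some v => exact absurd hl (hcon v ε))
    have hk0 : k ≠ 0 := by
      rintro rfl
      rw [hk] at hconj
      apply h1
      rw [hconj]; simp
    have := (step g0 _ hconj (FreeGroup.mk L)).2 ⟨1, by simp⟩
    rw [hk] at this
    exact hh k hk0 _ this
  -- make it `(some v, false)`
  obtain ⟨v, L', hv, hcyc', hgen'⟩ : ∃ (v : N) (L' : List (Option N × Bool)), (some v, false) ∈ L' ∧
      IsCyclicallyReduced L' ∧ (∀ w : FreeGroup (Option N), w • (g0⁻¹ • y) = g0⁻¹ • y ↔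
        ∃ k : ℤ, w = FreeGroup.mk L' ^ k) := by
    obtain ⟨v, ε, hv⟩ := hlet
    cases ε with
    | false => exact ⟨v, L, hv, hcyc, step g0 _ hconj⟩
    | true =>
      refine ⟨v, invRev L, ?_, cyc_invRev L hcyc, ?_⟩
      · unfold invRev
        rw [List.mem_reverse, List.mem_map]
        exact ⟨_, hv, rfl⟩
      · intro w
        rw [step g0 _ hconj w, ← inv_mk]
        constructor
        · rintro ⟨k, rfl⟩; exact ⟨-k, by rw [inv_zpow, zpow_neg, inv_inv]⟩
        · rintro ⟨k, rfl⟩; exact ⟨-k, by rw [inv_zpow, zpow_neg]⟩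
  -- rotate
  obtain ⟨p, q, rfl⟩ := List.append_of_mem hv
  have hcyc2 := cyc_rotate p _ hcyc'
  refine ⟨(FreeGroup.mk p)⁻¹ • (g0⁻¹ • y), ?_, Or.inr ⟨FreeGroup.mk ((some v, false) :: q ++ p), v, q ++ p, ?_, ?_, ?_⟩⟩
  · rw [← mul_smul]; exact ⟨_, rfl⟩
  · rw [toWord_mk, hcyc2.isReduced.reduce_eq]; rfl
  · rw [toWord_mk, hcyc2.isReduced.reduce_eq]; exact hcyc2
  · intro w
    have e1 : FreeGroup.mk (p ++ (some v, false) :: q)
        = FreeGroup.mk p * FreeGroup.mk ((some v, false) :: q ++ p) * (FreeGroup.mk p)⁻¹ := by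
      rw [← mul_mk, ← mul_mk]; group
    constructor
    · intro hw
      have : (FreeGroup.mk p * w * (FreeGroup.mk p)⁻¹) • (g0⁻¹ • y) = g0⁻¹ • y := by
        rw [mul_smul, mul_smul, hw, smul_inv_smul]
      obtain ⟨k, hk⟩ := (hgen' _).1 this
      rw [e1, conj_zpow] at hk
      exact ⟨k, mul_left_cancel (mul_right_cancel hk)⟩
    · rintro ⟨k, rfl⟩
      have := (hgen' _).2 ⟨k, rfl⟩
      rw [e1, conj_zpow, mul_smul, mul_smul] at this
      exact eq_inv_smul_iff.2 this

/-- the solution on the whole space -/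
theorem exists_good {S : N → Set I} [Nonempty I] (hS : ∀ u, (S u).Nonempty ∧ S u ≠ Set.univ)
    (hne : ∀ u v, u ≠ v → S u ≠ S v ∧ S u ≠ (S v)ᶜ)
    (hcomm : ∀ (y : X) (w w' : FreeGroup (Option N)), w • y = y → w' • y = y → w * w' = w' * w)
    (hh : ∀ k : ℤ, k ≠ 0 → ∀ x : X, (FreeGroup.of (none : Option N)) ^ k • x ≠ x) :
    ∃ (β : X → Bool) (m : X → I), ∀ x, Good S β m x := by
  have key : ∀ q : MulAction.orbitRel.Quotient (FreeGroup (Option N)) X,
      ∃ (β : X → Bool) (m : X → I), ∀ x : X, (⟦x⟧ : MulAction.orbitRel.Quotient (FreeGroup (Option N)) X) = q →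
        Good S β m x := by
    intro q
    obtain ⟨y, rfl⟩ := Quotient.exists_rep q
    obtain ⟨y', hy', hb⟩ := orbit_base y (hcomm y) hh
    obtain ⟨β, m, h⟩ := base hS hne y' hb
    refine ⟨β, m, fun x hx => h x ?_⟩
    have h1 : x ∈ MulAction.orbit (FreeGroup (Option N)) y := Quotient.exact hx
    rwa [← MulAction.orbit_eq_iff.2 hy'] at h1
  choose β m h using key
  refine ⟨fun x => β ⟦x⟧ x, fun x => m ⟦x⟧ x, fun x => ?_⟩
  have h1 := h ⟦x⟧ x rfl
  have hq : ∀ w : FreeGroup (Option N),
      (⟦w • x⟧ : MulAction.orbitRel.Quotient (FreeGroup (Option N)) X) = ⟦x⟧ := by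
    intro w
    apply Quotient.sound
    exact ⟨w, rfl⟩
  refine ⟨?_, ?_⟩
  · beta_reduce
    rw [hq]; exact h1.1
  · intro u
    beta_reduce
    rw [hq]; exact h1.2 u

end

end Pool.Agent.T9lead.Cong
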