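import Pool.Agent.T9lead.Cong.Indep
import Pool.Agent.T9lead.Cong.Orbit

/-! Assembly of the solution of systems of congruences in the hyperbolic plane. -/

set_option autoImplicit false

namespace Pool.Agent.T9lead.Cong

open Matrix Matrix.SpecialLinearGroup UpperHalfPlane
open scoped MatrixGroups Pointwise

/-- equations of the stabiliser of a point -/
lemma stab_eqs (A : SL(2, ℝ)) (z : ℍ) (h : A • z = z) :
    A 0 0 - A 1 1 = 2 * A 1 0 * z.re ∧ A 0 1 = - A 1 0 * (z.re ^ 2 + z.im ^ 2) := by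
  have h1 : ((A • z : ℍ) : ℂ) = (z : ℂ) := by rw [h]
  have hz := z.im_pos
  rw [coe_specialLinearGroup_apply] at h1
  simp only [Algebra.algebraMap_self, RingHom.id_apply] at h1
  have hden : ((A 1 0 : ℝ) : ℂ) * (z : ℂ) + ((A 1 1 : ℝ) : ℂ) ≠ 0 := by
    intro h0
    have him := congrArg Complex.im h0
    have hre := congrArg Complex.re h0
    simp only [Complex.add_im, Complex.mul_im, Complex.ofReal_re, Complex.ofReal_im, zero_mul,
      add_zero, Complex.zero_im, Complex.add_re, Complex.mul_re, Complex.zero_re, sub_zero] at him hre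
    have h2 : A 1 0 = 0 := by
      rcases mul_eq_zero.1 him with h3 | h3
      · exact h3
      · exact absurd h3 hz.ne'
    have h4 : A 1 1 = 0 := by rw [h2] at hre; simpa using hre
    have hdet := A.det_coe
    rw [Matrix.det_fin_two] at hdet
    have h5 : (A : Matrix (Fin 2) (Fin 2) ℝ) 1 0 = 0 := h2
    have h6 : (A : Matrix (Fin 2) (Fin 2) ℝ) 1 1 = 0 := h4
    rw [h5, h6] at hdet
    simp at hdet
  rw [div_eq_iff hden] at h1
  have him := congrArg Complex.im h1
  have hre := congrArg Complex.re h1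
  simp only [Complex.add_im, Complex.mul_im, Complex.ofReal_re, Complex.ofReal_im, zero_mul,
      add_zero, Complex.add_re, Complex.mul_re, sub_zero] at him hre
  have e1 : ((z : ℂ)).im = z.im := rfl
  have e2 : ((z : ℂ)).re = z.re := rfl
  rw [e1, e2] at him hre
  have k1 : A 0 0 - A 1 1 = 2 * A 1 0 * z.re := by
    have : (A 0 0 - A 1 1 - 2 * A 1 0 * z.re) * z.im = 0 := by linear_combination him
    rcases mul_eq_zero.1 this with h3 | h3
    · linarith
    · exact absurd h3 hz.ne'
  refine ⟨k1, ?_⟩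
  linear_combination hre - z.re * k1

lemma stab_comm (A B : SL(2, ℝ)) (z : ℍ) (hA : A • z = z) (hB : B • z = z) : A * B = B * A := by
  obtain ⟨a1, a2⟩ := stab_eqs A z hA
  obtain ⟨b1, b2⟩ := stab_eqs B z hB
  have a1' : A 0 0 = A 1 1 + 2 * A 1 0 * z.re := by linarith
  have b1' : B 0 0 = B 1 1 + 2 * B 1 0 * z.re := by linarith
  have e : ∀ i j, (A * B) i j = A i 0 * B 0 j + A i 1 * B 1 j := by
    intro i j
    change ((A : Matrix (Fin 2) (Fin 2) ℝ) * (B : Matrix (Fin 2) (Fin 2) ℝ)) i j = _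
    rw [Matrix.mul_apply, Fin.sum_univ_two]
  have e' : ∀ i j, (B * A) i j = B i 0 * A 0 j + B i 1 * A 1 j := by
    intro i j
    change ((B : Matrix (Fin 2) (Fin 2) ℝ) * (A : Matrix (Fin 2) (Fin 2) ℝ)) i j = _
    rw [Matrix.mul_apply, Fin.sum_univ_two]
  ext i j
  rw [e, e']
  fin_cases i <;> fin_cases j <;> simp only [Fin.zero_eta, Fin.mk_one, Fin.isValue]
  · rw [a1', b1', a2, b2]; ring
  · rw [a1', b1', a2, b2]; ring
  · rw [a1', b1']; ring
  · rw [a2, b2]; ring

lemma hm_im (z : ℍ) : (hm ℝ • z).im = 4 * z.im := by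
  have h := congrArg Complex.im (hm_apply z)
  rw [show ((hm ℝ • z : ℍ) : ℂ).im = (hm ℝ • z).im from rfl] at h
  rw [h]
  simp

lemma hm_pow_im (n : ℕ) (z : ℍ) : ((hm ℝ) ^ n • z).im = 4 ^ n * z.im := by
  induction n with
  | zero => simp
  | succ n ih => rw [pow_succ', mul_smul, hm_im, ih]; ring

lemma hm_pow_ne (n : ℕ) (hn : n ≠ 0) (z : ℍ) : (hm ℝ) ^ n • z ≠ z := by
  intro h
  have h1 := hm_pow_im n z
  rw [h] at h1
  have h2 : (1 : ℝ) < 4 ^ n := one_lt_pow₀ (by norm_num) hn
  have h3 := z.im_pos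
  nlinarith

lemma hm_zpow_ne (k : ℤ) (hk : k ≠ 0) (z : ℍ) : (hm ℝ) ^ k • z ≠ z := by
  rcases Int.natAbs_eq k with h | h
  · rw [h, zpow_natCast]
    exact hm_pow_ne _ (by omega) z
  · rw [h, _root_.zpow_neg, zpow_natCast]
    intro h1
    exact hm_pow_ne k.natAbs (by omega) z (inv_smul_eq_iff.1 h1).symm

theorem solve (I M : Type) (L R : M → Set I) (hI : Nonempty I)
    (hM : Cardinal.mk M ≤ Cardinal.continuum)
    (hLR : ∀ i, (L i).Nonempty ∧ L i ≠ Set.univ ∧ (R i).Nonempty ∧ R i ≠ Set.univ) :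
      ∃ A : I → Set UpperHalfPlane,
        Pairwise (fun j k => Disjoint (A j) (A k)) ∧
        (⋃ j, A j) = Set.univ ∧
        ∀ i, ∃ g : IsometryEquiv UpperHalfPlane UpperHalfPlane,
          g '' (⋃ j ∈ L i, A j) = ⋃ j ∈ R i, A j := by
  classical
  obtain ⟨i0⟩ := hI
  let F : M × Fin 4 → Set I := fun p =>
    match p.2 with
    | 0 => L p.1
    | 1 => (L p.1)ᶜ
    | 2 => R p.1
    | 3 => (R p.1)ᶜ
  let N : Type := {S : Set I // (i0 ∈ S ∧ S ≠ Set.univ) ∧ S ∈ Set.range F}
  have hNcard : Cardinal.mk N ≤ Cardinal.continuum := by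
    have h1 : Cardinal.mk N ≤ Cardinal.mk (Set.range F) :=
      Cardinal.mk_le_of_injective (f := fun u : N => (⟨u.1, u.2.2⟩ : Set.range F)) (by
        intro u v h
        apply Subtype.ext
        exact congrArg (fun s : Set.range F => s.1) h)
    have h2 : Cardinal.mk (Set.range F) ≤ Cardinal.mk (M × Fin 4) := Cardinal.mk_range_le
    have h3 : Cardinal.mk (M × Fin 4) ≤ Cardinal.continuum := by
      rw [Cardinal.mk_prod, Cardinal.lift_id, Cardinal.lift_id]
      calc Cardinal.mk M * Cardinal.mk (Fin 4) ≤ Cardinal.continuum * Cardinal.continuum := by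
            gcongr
            rw [Cardinal.mk_fin]
            exact (Cardinal.natCast_lt_aleph0.trans Cardinal.aleph0_lt_continuum).le
        _ = Cardinal.continuum := Cardinal.continuum_mul_self
    exact h1.trans (h2.trans h3)
  -- every side is, up to a sign, a node
  have node : ∀ T : Set I, T.Nonempty → T ≠ Set.univ → T ∈ Set.range F → Tᶜ ∈ Set.range F →
      ∃ (u : N) (a : Bool), ∀ j, (j ∈ T ↔ (decide (j ∈ u.1)) = a) := by
    intro T hT hT' h1 h2
    by_cases h : i0 ∈ T
    · refine ⟨⟨T, ⟨h, hT'⟩, h1⟩, true, fun j => by simp⟩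
    · refine ⟨⟨Tᶜ, ⟨h, ?_⟩, h2⟩, false, fun j => by simp⟩
      intro h3
      rw [Set.compl_univ_iff] at h3
      exact hT.ne_empty h3
  have nodeL : ∀ i, ∃ (u : N) (a : Bool), ∀ j, (j ∈ L i ↔ (decide (j ∈ u.1)) = a) := fun i =>
    node (L i) (hLR i).1 (hLR i).2.1 ⟨(i, 0), rfl⟩ ⟨(i, 1), rfl⟩
  have nodeR : ∀ i, ∃ (u : N) (a : Bool), ∀ j, (j ∈ R i ↔ (decide (j ∈ u.1)) = a) := fun i =>
    node (R i) (hLR i).2.2.1 (hLR i).2.2.2 ⟨(i, 2), rfl⟩ ⟨(i, 3), rfl⟩
  by_cases hN : Nonempty N
  · obtain ⟨x, hx⟩ := exists_algInd N hNcard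
    have hinj := phi_injective x hx
    let act : MulAction (FreeGroup (Option N)) ℍ := MulAction.compHom ℍ (phi x)
    have hact : ∀ (w : FreeGroup (Option N)) (z : ℍ), w • z = phi x w • z := fun w z => rfl
    have : Nonempty I := ⟨i0⟩
    obtain ⟨β, m, hgood⟩ := exists_good (X := ℍ) (S := fun u : N => u.1)
      (fun u => ⟨⟨i0, u.2.1.1⟩, u.2.1.2⟩)
      (fun u v huv => ⟨fun h => huv (Subtype.ext h), fun h => by
        have h1 : i0 ∈ (v.1)ᶜ := h ▸ u.2.1.1
        exact h1 v.2.1.1⟩)
      (fun y w w' h h' => hinj (by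
        rw [map_mul, map_mul]
        exact stab_comm _ _ y h h'))
      (fun k hk z => by
        rw [hact, map_zpow]
        have : phi x (FreeGroup.of none) = hm ℝ := by
          simp [phi, gen]
        rw [this]
        exact hm_zpow_ne k hk z)
    refine ⟨fun j => {z | m z = j}, ?_, ?_, ?_⟩
    · intro j k hjk
      rw [Set.disjoint_left]
      intro z h1 h2
      exact hjk (h1.symm.trans h2)
    · ext z; simp
    · intro i
      obtain ⟨u, a, hu⟩ := nodeL i
      obtain ⟨v, b, hv⟩ := nodeR i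
      have hL : (⋃ j ∈ L i, {z | m z = j}) = {z | m z ∈ L i} := by ext z; simp
      have hR : (⋃ j ∈ R i, {z | m z = j}) = {z | m z ∈ R i} := by ext z; simp
      have hu' : ∀ z, m z ∈ L i ↔ β ((FreeGroup.of (some u))⁻¹ • z) = a := by
        intro z
        rw [hu]
        have := (hgood z).2 u
        by_cases h1 : m z ∈ u.1
        · rw [this.1 h1]; simp [h1]
        · have h2 : β ((FreeGroup.of (some u))⁻¹ • z) = false := by
            rw [← Bool.not_eq_true]; exact fun h3 => h1 (this.2 h3)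
          rw [h2]; simp [h1]
      have hv' : ∀ z, m z ∈ R i ↔ β ((FreeGroup.of (some v))⁻¹ • z) = b := by
        intro z
        rw [hv]
        have := (hgood z).2 v
        by_cases h1 : m z ∈ v.1
        · rw [this.1 h1]; simp [h1]
        · have h2 : β ((FreeGroup.of (some v))⁻¹ • z) = false := by
            rw [← Bool.not_eq_true]; exact fun h3 => h1 (this.2 h3)
          rw [h2]; simp [h1]
      obtain ⟨k, hk⟩ : ∃ k : FreeGroup (Option N), ∀ y : ℍ, (β y = a ↔ β (k • y) = b) := by
        by_cases hab : a = b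
        · exact ⟨1, fun y => by rw [one_smul, hab]⟩
        · refine ⟨FreeGroup.of none, fun y => ?_⟩
          rw [(hgood y).1]
          have : b = !a := by cases a <;> cases b <;> simp_all
          rw [this]
          cases β y <;> cases a <;> simp
      let W : FreeGroup (Option N) := FreeGroup.of (some v) * k * (FreeGroup.of (some u))⁻¹
      have hW : ∀ z : ℍ, m z ∈ L i ↔ m (W • z) ∈ R i := by
        intro z
        rw [hu', hv', hk]
        have : (FreeGroup.of (some v))⁻¹ • W • z = k • (FreeGroup.of (some u))⁻¹ • z := by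
          rw [← mul_smul, ← mul_smul]
          congr 1
          simp only [W]
          group
        rw [this]
      refine ⟨IsometryEquiv.constSMul (phi x W), ?_⟩
      rw [hL, hR]
      ext z
      constructor
      · rintro ⟨y, hy, rfl⟩
        exact (hW y).1 hy
      · intro hz
        refine ⟨W⁻¹ • z, ?_, ?_⟩
        · change m (W⁻¹ • z) ∈ L i
          rw [hW, smul_inv_smul]
          exact hz
        · change W • W⁻¹ • z = z
          rw [smul_inv_smul]
  · refine ⟨fun j => if j = i0 then Set.univ else ∅, ?_, ?_, ?_⟩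
    · intro j k hjk
      dsimp only
      by_cases hj : j = i0
      · have hk : k ≠ i0 := fun h => hjk (hj.trans h.symm)
        simp [hk]
      · simp [hj]
    · apply Set.eq_univ_of_forall
      intro z
      exact Set.mem_iUnion.2 ⟨i0, by simp⟩
    · intro i
      obtain ⟨u, -, -⟩ := nodeL i
      exact absurd ⟨u⟩ hN

end Pool.Agent.T9lead.Cong
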