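import Mathlib

/-! Unique representatives of the cosets `w ⟨c⟩` of a cyclic subgroup of a free group,
`c` cyclically reduced. -/

set_option autoImplicit false

namespace Pool.Agent.T9lead.Cong

open FreeGroup List

variable {α : Type} [DecidableEq α]

/-- the inverse of the first letter of `c` is not the last letter of `w` -/
def P (a : α × Bool) (w : FreeGroup α) : Prop := (a.1, !a.2) ∉ w.toWord.getLast?

/-- representatives -/
def D (c : FreeGroup α) (a : α × Bool) : Set (FreeGroup α) :=
  {w | ¬ (c.toWord <:+ w.toWord) ∧ P a w}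

section
variable {c : FreeGroup α} {a : α × Bool} {t : List (α × Bool)}

lemma toWord_of_reduced (L : List (α × Bool)) (h : IsReduced L) : (mk L).toWord = L := by
  rw [toWord_mk]; exact h.reduce_eq

lemma P_mul (hc : c.toWord = a :: t) (w : FreeGroup α) (hP : P a w) :
    (w * c).toWord = w.toWord ++ c.toWord := by
  rw [toWord_mul]
  apply IsReduced.reduce_eq
  unfold FreeGroup.IsReduced
  rw [List.isChain_append]
  refine ⟨isReduced_toWord, isReduced_toWord, ?_⟩
  intro x hx y hy hxy
  rw [hc] at hy
  simp at hy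
  subst hy
  unfold P at hP
  by_contra hcon
  apply hP
  have : (a.1, !a.2) = x := by
    apply Prod.ext
    · exact hxy.symm
    · simp only
      cases h1 : a.2 <;> cases h2 : x.2 <;> simp_all
  rw [this]; exact hx

lemma P_step (hc : c.toWord = a :: t) (hcr : IsCyclicallyReduced c.toWord) (w : FreeGroup α)
    (hP : P a w) : P a (w * c) := by
  unfold P
  rw [P_mul hc w hP]
  intro hcon
  rw [List.getLast?_append_of_ne_nil _ (by rw [hc]; simp)] at hcon
  have := hcr.2 _ hcon a (by rw [hc]; simp) rfl
  simp at this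

lemma P_pow (hc : c.toWord = a :: t) (hcr : IsCyclicallyReduced c.toWord) (w : FreeGroup α)
    (hP : P a w) (n : ℕ) : P a (w * c ^ n) := by
  induction n with
  | zero => simpa using hP
  | succ n ih => rw [pow_succ, ← mul_assoc]; exact P_step hc hcr _ ih

lemma suffix_pow (hc : c.toWord = a :: t) (hcr : IsCyclicallyReduced c.toWord) (w : FreeGroup α)
    (hP : P a w) (n : ℕ) (hn : 1 ≤ n) : c.toWord <:+ (w * c ^ n).toWord := by
  obtain ⟨k, rfl⟩ : ∃ k, n = k + 1 := ⟨n - 1, by omega⟩
  rw [pow_succ, ← mul_assoc, P_mul hc _ (P_pow hc hcr w hP k)]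
  exact List.suffix_append _ _

lemma length_pow (hc : c.toWord = a :: t) (hcr : IsCyclicallyReduced c.toWord) (w : FreeGroup α)
    (hP : P a w) (n : ℕ) : (w * c ^ n).toWord.length = w.toWord.length + n * c.toWord.length := by
  induction n with
  | zero => simp
  | succ n ih =>
    rw [pow_succ, ← mul_assoc, P_mul hc _ (P_pow hc hcr w hP n), List.length_append, ih]; ring

lemma unique (hc : c.toWord = a :: t) (hcr : IsCyclicallyReduced c.toWord) (w : FreeGroup α)
    (k : ℤ) (h1 : w ∈ D c a) (h2 : w * c ^ k ∈ D c a) : k = 0 := by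
  rcases lt_trichotomy k 0 with hk | hk | hk
  · exfalso
    obtain ⟨n, hn⟩ : ∃ n : ℕ, k = -(n : ℤ) := ⟨k.natAbs, by omega⟩
    have h3 := suffix_pow hc hcr (w * c ^ k) h2.2 n (by omega)
    apply h1.1
    have : w * c ^ k * c ^ n = w := by rw [hn]; simp
    rwa [this] at h3
  · exact hk
  · exfalso
    obtain ⟨n, hn⟩ : ∃ n : ℕ, k = (n : ℤ) := ⟨k.natAbs, by omega⟩
    have h3 := suffix_pow hc hcr w h1.2 n (by omega)
    apply h2.1
    rwa [hn, zpow_natCast]

lemma exists_not_P (hc : c.toWord = a :: t) (w : FreeGroup α) : ∃ n : ℕ, ¬ P a (w * (c ^ n)⁻¹) := by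
  by_contra hcon
  push Not at hcon
  have key : ∀ n : ℕ, n * c.toWord.length ≤ w.toWord.length - (w * (c ^ n)⁻¹).toWord.length ∧
      (w * (c ^ n)⁻¹).toWord.length ≤ w.toWord.length := by
    intro n
    induction n with
    | zero => simp
    | succ n ih =>
      have h1 := P_mul hc _ (hcon (n + 1))
      have h2 : w * (c ^ (n + 1))⁻¹ * c = w * (c ^ n)⁻¹ := by
        rw [pow_succ', mul_inv_rev, ← mul_assoc]; simp
      rw [h2] at h1
      have h3 := congrArg List.length h1
      rw [List.length_append] at h3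
      have : (n + 1) * c.toWord.length = n * c.toWord.length + c.toWord.length := by ring
      omega
  have h1 := (key (w.toWord.length + 1)).1
  have h2 : 1 ≤ c.toWord.length := by rw [hc]; simp
  nlinarith [Nat.sub_le w.toWord.length (w * (c ^ (w.toWord.length + 1))⁻¹).toWord.length]

lemma length_mul_lt (hc : c.toWord = a :: t) (w : FreeGroup α) (hP : ¬ P a w) :
    (w * c).toWord.length + 2 ≤ w.toWord.length + c.toWord.length := by
  unfold P at hP
  rw [not_not] at hP
  obtain ⟨s, hs⟩ : ∃ s, w.toWord = s ++ [(a.1, !a.2)] := by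
    have h1 : w.toWord ≠ [] := by
      intro h; rw [h] at hP; simp at hP
    refine ⟨w.toWord.dropLast, ?_⟩
    rw [Option.mem_def, List.getLast?_eq_some_getLast h1] at hP
    rw [← Option.some.inj hP, List.dropLast_append_getLast]
  have h2 : w * c = mk (s ++ t) := by
    have e1 : w = mk (s ++ [(a.1, !a.2)]) := by rw [← hs, mk_toWord]
    have e2 : c = mk (a :: t) := by rw [← hc, mk_toWord]
    rw [e1, e2, mul_mk]
    have : s ++ [(a.1, !a.2)] ++ a :: t = s ++ (a.1, !a.2) :: (a.1, a.2) :: t := by simp
    rw [this]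
    apply Quot.sound
    exact Red.Step.not_rev
  have h3 : (w * c).toWord.length ≤ (s ++ t).length := by
    rw [h2]; exact norm_mk_le
  have h4 := congrArg List.length hs
  have h5 := congrArg List.length hc
  simp at h3 h4 h5
  omega

lemma exists_P (hc : c.toWord = a :: t) (hcr : IsCyclicallyReduced c.toWord) (w : FreeGroup α) :
    ∃ n : ℕ, P a (w * c ^ n) := by
  by_contra hcon
  push Not at hcon
  have key : ∀ n : ℕ, (w * c ^ n).toWord.length + 2 * n ≤ w.toWord.length + n * c.toWord.length := by
    intro n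
    induction n with
    | zero => simp
    | succ n ih =>
      have h1 := length_mul_lt hc _ (hcon n)
      rw [pow_succ, ← mul_assoc]
      have : (n + 1) * c.toWord.length = n * c.toWord.length + c.toWord.length := by ring
      omega
  set n := w.toWord.length + 1 with hn
  have h1 := key n
  have h2 := length_pow hc hcr 1 (by unfold P; simp) n
  rw [one_mul] at h2
  have h3 : (c ^ n).toWord.length ≤ (w⁻¹).toWord.length + (w * c ^ n).toWord.length := by
    have := norm_mul_le w⁻¹ (w * c ^ n)
    rw [inv_mul_cancel_left] at this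
    exact this
  have h4 : (w⁻¹).toWord.length = w.toWord.length := norm_inv_eq
  simp at h2
  omega

theorem exists_rep (hc : c.toWord = a :: t) (hcr : IsCyclicallyReduced c.toWord) (w : FreeGroup α) :
    ∃ k : ℤ, w * c ^ k ∈ D c a := by
  have hmono : ∀ (k : ℤ) (n : ℕ), P a (w * c ^ k) → P a (w * c ^ (k + n)) := by
    intro k n h
    rw [zpow_add, ← mul_assoc, zpow_natCast]
    exact P_pow hc hcr _ h n
  obtain ⟨n0, hn0⟩ := exists_not_P hc w
  obtain ⟨n1, hn1⟩ := exists_P hc hcr w
  obtain ⟨k, hk, hmin⟩ := Int.exists_least_of_bdd (P := fun k : ℤ => P a (w * c ^ k))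
    ⟨-(n0 : ℤ), fun z hz => by
      by_contra hlt
      push Not at hlt
      apply hn0
      have := hmono z ((-(n0 : ℤ) - z).toNat) hz
      rw [show z + ((-(n0 : ℤ) - z).toNat : ℤ) = -(n0 : ℤ) by omega] at this
      rwa [zpow_neg, zpow_natCast] at this⟩
    ⟨(n1 : ℤ), by rwa [zpow_natCast]⟩
  refine ⟨k, ?_, hk⟩
  rintro ⟨T, hT⟩
  have hk1 : ¬ P a (w * c ^ (k - 1)) := fun h => by have := hmin _ h; omega
  apply hk1
  have hred : IsReduced (T ++ c.toWord) := by rw [hT]; exact isReduced_toWord
  have hTr : IsReduced T := (List.isChain_append.1 hred).1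
  have e1 : w * c ^ (k - 1) = mk T := by
    have : mk T * c = w * c ^ k := by
      have h1 : mk T * mk c.toWord = mk (T ++ c.toWord) := mul_mk
      rw [mk_toWord, hT, mk_toWord] at h1
      exact h1
    rw [zpow_sub_one, ← mul_assoc, ← this]; group
  rw [e1]
  unfold P
  rw [toWord_of_reduced T hTr]
  intro hcon
  unfold FreeGroup.IsReduced at hred
  rw [List.isChain_append] at hred
  have := hred.2.2 _ hcon a (by rw [hc]; simp) rfl
  simp at this

end

end Pool.Agent.T9lead.Cong
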