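import Pool.Agent.T9lead.Cong.Comb
import Pool.Agent.T9lead.Cong.Coset

/-! The recursive solution on one orbit. -/

set_option autoImplicit false

namespace Pool.Agent.T9lead.Cong

open FreeGroup List

/-- toWord of a letter times a word -/
lemma toWord_letter_mul {α : Type} [DecidableEq α] (l : α × Bool) (w : FreeGroup α) :
    (∃ s, w.toWord = (l.1, !l.2) :: s ∧ (mk [l] * w).toWord = s) ∨
    (mk [l] * w).toWord = l :: w.toWord := by
  rw [toWord_mul, toWord_mk]
  have h1 : reduce [l] = [l] := reduce_singleton l
  rw [h1]
  have h2 : reduce ([l] ++ w.toWord) = reduce (l :: w.toWord) := rfl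
  rw [h2, reduce.cons, reduce_toWord]
  cases hw : w.toWord with
  | nil => right; rfl
  | cons x s =>
    by_cases hx : l.1 = x.1 ∧ l.2 = !x.2
    · left
      refine ⟨s, ?_, ?_⟩
      · congr 1
        apply Prod.ext
        · exact hx.1.symm
        · simp only; rw [hx.2]; simp
      · simp [hx]
    · right
      simp [hx]

section
variable {N I X : Type} [DecidableEq N] [MulAction (FreeGroup (Option N)) X]

/-- The conditions on the solution at one point. -/
def Good (S : N → Set I) (β : X → Bool) (m : X → I) (x : X) : Prop :=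
  β (FreeGroup.of (none : Option N) • x) = !β x ∧
  ∀ u : N, (m x ∈ S u ↔ β ((FreeGroup.of (some u))⁻¹ • x) = true)

/-- Base points of the first kind. -/
def Free (y : X) : Prop := ∀ w : FreeGroup (Option N), w • y = y → w = 1

/-- Base points of the second kind. -/
def Cyc (y : X) : Prop := ∃ (c : FreeGroup (Option N)) (v : N) (t : List (Option N × Bool)),
  c.toWord = (some v, false) :: t ∧ IsCyclicallyReduced c.toWord ∧
  ∀ w : FreeGroup (Option N), w • y = y ↔ ∃ k : ℤ, w = c ^ k

/-- abstract transfer: a solution on words gives a solution on the orbit -/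
lemma transfer {S : N → Set I} (hS : ∀ u, (S u).Nonempty ∧ S u ≠ Set.univ) (y : X)
    (D : Set (FreeGroup (Option N)))
    (hex : ∀ w : FreeGroup (Option N), ∃ w' ∈ D, w' • y = w • y)
    (huni : ∀ w w' : FreeGroup (Option N), w ∈ D → w' ∈ D → w • y = w' • y → w = w')
    (m0 : I) (b : Bool) (ws : List (Option N × Bool)) (ms : I)
    (hws : ∀ u c, ws = (some u, true) :: c → (ms ∈ S u ↔ (sol S m0 b ws ms c).1 = true))
    (htail : ∀ (w : FreeGroup (Option N)) l s, w ∈ D → w.toWord = l :: s →
      ∀ w' : FreeGroup (Option N), w'.toWord = s → w' ∈ D)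
    (hcons : ∀ (w w' : FreeGroup (Option N)) l, (l = (none, true) ∨ ∃ u, l = (some u, false)) →
      w ∈ D → w'.toWord = l :: w.toWord → w' ∈ D ∨
      ∃ v, l = (some v, false) ∧ w.toWord = ws ∧ w' • y = y ∧ (ms ∈ S v ↔ b = true))
    (h1 : (1 : FreeGroup (Option N)) ∈ D) :
    ∃ (β : X → Bool) (m : X → I), ∀ x ∈ MulAction.orbit (FreeGroup (Option N)) y, Good S β m x := by
  have hrep : ∀ x : X, ∃ w : FreeGroup (Option N),
      (x ∈ MulAction.orbit (FreeGroup (Option N)) y → w ∈ D ∧ w • y = x) := by
    intro x
    by_cases hx : x ∈ MulAction.orbit (FreeGroup (Option N)) y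
    · obtain ⟨w, rfl⟩ := hx
      obtain ⟨w', hw', h⟩ := hex w
      exact ⟨w', fun _ => ⟨hw', h⟩⟩
    · exact ⟨1, fun h => absurd h hx⟩
  choose rep hrep using hrep
  have hrepD : ∀ w ∈ D, rep (w • y) = w := by
    intro w hw
    have h := hrep (w • y) ⟨w, rfl⟩
    exact huni _ _ h.1 hw h.2
  refine ⟨fun x => (sol S m0 b ws ms (rep x).toWord).1, fun x => (sol S m0 b ws ms (rep x).toWord).2,
    ?_⟩
  intro x hx
  obtain ⟨hwD, hwx⟩ := hrep x hx
  set w := rep x with hw
  refine ⟨?_, ?_⟩
  · -- the flip
    have e0 : (FreeGroup.of (none : Option N)) • x = (mk [(none, true)] * w) • y := by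
      rw [mul_smul, hwx]; rfl
    beta_reduce
    rw [e0]
    rcases toWord_letter_mul ((none : Option N), true) w with ⟨s, hs1, hs2⟩ | hs
    · have hD : (mk [((none : Option N), true)] * w) ∈ D := htail w _ s hwD hs1 _ hs2
      rw [hrepD _ hD, hs2, ← hw, hs1]
      show _ = !(sol S m0 b ws ms ((none, !true) :: s)).1
      rw [sol_h]; simp
    · have hD : (mk [((none : Option N), true)] * w) ∈ D := by
        rcases hcons w _ _ (Or.inl rfl) hwD hs with h | ⟨v, hv, _⟩
        · exact h
        · simp at hv
      rw [hrepD _ hD, hs, sol_h, ← hw]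
  · intro u
    have e0 : (FreeGroup.of (some u : Option N))⁻¹ • x = (mk [(some u, false)] * w) • y := by
      rw [mul_smul, hwx]
      congr 1
    beta_reduce
    rw [e0, ← hw]
    rcases toWord_letter_mul ((some u : Option N), false) w with ⟨s, hs1, hs2⟩ | hs
    · have hD : (mk [((some u : Option N), false)] * w) ∈ D := htail w _ s hwD hs1 _ hs2
      rw [hrepD _ hD, hs2, hs1]
      exact sol_gp hS m0 b ws ms hws u s
    · rcases hcons w _ _ (Or.inr ⟨u, rfl⟩) hwD hs with hD | ⟨v, hv, h2, h3, h4⟩
      · rw [hrepD _ hD, hs, sol_gm]; simp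
      · simp only [Prod.mk.injEq, Option.some.injEq, and_true] at hv
        subst hv
        rw [h3, h2, sol_ws]
        have : rep y = 1 := by
          have := hrepD 1 h1
          rwa [one_smul] at this
        rw [this, toWord_one, sol_nil]
        exact h4

theorem base {S : N → Set I} [Nonempty I] (hS : ∀ u, (S u).Nonempty ∧ S u ≠ Set.univ)
    (hne : ∀ u v, u ≠ v → S u ≠ S v ∧ S u ≠ (S v)ᶜ) (y : X)
    (hy : Free (N := N) y ∨ Cyc (N := N) y) :
    ∃ (β : X → Bool) (m : X → I), ∀ x ∈ MulAction.orbit (FreeGroup (Option N)) y, Good S β m x := by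
  obtain ⟨m0⟩ := ‹Nonempty I›
  rcases hy with hy | ⟨c, v, t, hc, hcr, hst⟩
  · refine transfer hS y Set.univ (fun w => ⟨w, trivial, rfl⟩) ?_ m0 false [] m0 ?_
      (fun _ _ _ _ _ _ _ => trivial) (fun _ _ _ _ _ _ => Or.inl trivial) trivial
    · intro w w' _ _ h
      have : (w'⁻¹ * w) • y = y := by rw [mul_smul, h, inv_smul_smul]
      have h2 := hy _ this
      rw [inv_mul_eq_one] at h2
      exact h2.symm
    · intro u c h; simp at h
  · have hcy : ∀ k : ℤ, (c ^ k) • y = y := fun k => (hst _).2 ⟨k, rfl⟩
    have hcD := hcr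
    -- choose the parameters
    obtain ⟨b, ms, hms1, hms2⟩ : ∃ (b : Bool) (ms : I),
        (∀ u c', t = (some u, true) :: c' → (ms ∈ S u ↔ (sol S m0 b t ms c').1 = true)) ∧
        (ms ∈ S v ↔ b = true) := by
      by_cases h : ∃ u c', t = (some u, true) :: c'
      · obtain ⟨u, c', rfl⟩ := h
        have huv : u ≠ v := by
          rintro rfl
          have hr : FreeGroup.IsReduced c.toWord := isReduced_toWord
          rw [hc] at hr
          unfold FreeGroup.IsReduced at hr
          rw [List.isChain_cons_cons] at hr
          have := hr.1 rfl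
          simp at this
        obtain ⟨b, ms, h1, h2⟩ := atom hS hne u v huv
          (fun b => (sol S m0 b ((some u, true) :: c') m0 c').1)
        refine ⟨b, ms, ?_, h2⟩
        intro u' c'' h
        simp only [List.cons.injEq, Prod.mk.injEq, Option.some.injEq, and_true] at h
        obtain ⟨rfl, rfl⟩ := h
        rw [h1, sol_congr m0 b ((some u, true) :: c') ms m0 c' (by simp)]
      · refine ⟨true, pick S m0 v true, ?_, pick_spec S hS m0 v true⟩
        intro u c' h'
        exact absurd ⟨u, c', h'⟩ h
    have hk0 : ∀ (w w' : FreeGroup (Option N)), w • y = w' • y → ∃ k : ℤ, w' = w * c ^ k := by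
      intro w w' h
      have : (w⁻¹ * w') • y = y := by rw [mul_smul, ← h, inv_smul_smul]
      obtain ⟨k, hk⟩ := (hst _).1 this
      exact ⟨k, by rw [← hk]; group⟩
    refine transfer hS y (D c (some v, false)) ?_ ?_ m0 b t ms hms1 ?_ ?_ ?_
    · intro w
      obtain ⟨k, hk⟩ := exists_rep hc hcr w
      exact ⟨_, hk, by rw [mul_smul, hcy]⟩
    · intro w w' h1 h2 h
      obtain ⟨k, rfl⟩ := hk0 w w' h
      have := unique hc hcr w k h1 h2
      rw [this]; simp
    · -- tails
      intro w l s hw hws w' hw'
      refine ⟨?_, ?_⟩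
      · rw [hw']
        intro h
        apply hw.1
        rw [hws]
        exact h.trans (List.suffix_cons _ _)
      · unfold P
        rw [hw']
        intro h
        apply hw.2
        rw [hws]
        have hs : s ≠ [] := by rintro rfl; simp at h
        rw [List.getLast?_cons_of_ne_nil hs] 
        exact h
    · intro w w' l hl hw hw'
      by_cases h : w' ∈ D c (some v, false)
      · exact Or.inl h
      · right
        have hP : P (some v, false) w' := by
          unfold P
          rw [hw']
          by_cases hs : w.toWord = []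
          · rw [hs]
            simp only [List.getLast?_singleton]
            intro h5
            rw [Option.mem_def, Option.some.injEq] at h5
            rcases hl with rfl | ⟨u, rfl⟩ <;> simp at h5
          · intro h5
            apply hw.2
            rw [List.getLast?_cons_of_ne_nil hs] at h5
            exact h5
        have hsuf : c.toWord <:+ w'.toWord := by
          by_contra hcon
          exact h ⟨hcon, hP⟩
        rw [hw', List.suffix_cons_iff] at hsuf
        rcases hsuf with h6 | h6
        · rw [hc] at h6
          have h7 := (List.cons.inj h6).1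
          have h8 := (List.cons.inj h6).2
          refine ⟨v, h7.symm, h8.symm, ?_, hms2⟩
          have : w' = c := by
            apply toWord_injective
            rw [hw', hc, h6]
          rw [this]
          have := hcy 1
          rwa [zpow_one] at this
        · exact absurd h6 hw.1
    · refine ⟨?_, ?_⟩
      · rw [toWord_one, hc]; simp
      · unfold P; simp

end

end Pool.Agent.T9lead.Cong
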