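import Mathlib

/-! Recursive solution of a system of set congruences along reduced words of a free group. -/

set_option autoImplicit false

open Classical

namespace Pool.Agent.T9lead.Cong

variable {N I : Type} (S : N → Set I)

/-- a label whose membership in `S u` is prescribed -/
noncomputable def pick (m0 : I) (u : N) (β : Bool) : I :=
  if h : ∃ m, (m ∈ S u ↔ β = true) then h.choose else m0

lemma pick_spec (hS : ∀ u, (S u).Nonempty ∧ S u ≠ Set.univ) (m0 : I) (u : N) (β : Bool) :
    (pick S m0 u β ∈ S u ↔ β = true) := by
  have h : ∃ m, (m ∈ S u ↔ β = true) := by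
    cases β with
    | true => obtain ⟨m, hm⟩ := (hS u).1; exact ⟨m, by simp [hm]⟩
    | false =>
      obtain ⟨m, hm⟩ := (Set.ne_univ_iff_exists_notMem _).1 (hS u).2
      exact ⟨m, by simp [hm]⟩
  unfold pick
  rw [dif_pos h]
  exact h.choose_spec

/-- The solution on words: `true` letter = generator, `none` = the flip `h`. -/
noncomputable def sol (m0 : I) (b : Bool) (ws : List (Option N × Bool)) (ms : I) :
    List (Option N × Bool) → Bool × I
  | [] => (b, if [] = ws then ms else m0)
  | (none, ε) :: w => (!(sol m0 b ws ms w).1, if ((none, ε) :: w) = ws then ms else m0)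
  | (some u, false) :: w =>
      (decide ((sol m0 b ws ms w).2 ∈ S u), if ((some u, false) :: w) = ws then ms else m0)
  | (some u, true) :: w =>
      (false, if ((some u, true) :: w) = ws then ms else pick S m0 u (sol m0 b ws ms w).1)

variable {S}

lemma sol_nil (m0 : I) (b : Bool) (ws ms) : (sol S m0 b ws ms []).1 = b := rfl

lemma sol_h (m0 : I) (b : Bool) (ws ms) (ε w) :
    (sol S m0 b ws ms ((none, ε) :: w)).1 = !(sol S m0 b ws ms w).1 := rfl

lemma sol_gm (m0 : I) (b : Bool) (ws ms) (u w) :
    (sol S m0 b ws ms ((some u, false) :: w)).1 = decide ((sol S m0 b ws ms w).2 ∈ S u) := rfl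

lemma sol_gp (hS : ∀ u, (S u).Nonempty ∧ S u ≠ Set.univ) (m0 : I) (b : Bool) (ws ms)
    (hws : ∀ u c, ws = (some u, true) :: c → (ms ∈ S u ↔ (sol S m0 b ws ms c).1 = true)) (u w) :
    (sol S m0 b ws ms ((some u, true) :: w)).2 ∈ S u ↔ (sol S m0 b ws ms w).1 = true := by
  by_cases h : ((some u, true) :: w) = ws
  · have : (sol S m0 b ws ms ((some u, true) :: w)).2 = ms := by
      show (if ((some u, true) :: w) = ws then ms else pick S m0 u (sol S m0 b ws ms w).1) = ms
      rw [if_pos h]
    rw [this]
    exact hws u w h.symm
  · have : (sol S m0 b ws ms ((some u, true) :: w)).2 = pick S m0 u (sol S m0 b ws ms w).1 := by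
      show (if ((some u, true) :: w) = ws then ms else pick S m0 u (sol S m0 b ws ms w).1) = _
      rw [if_neg h]
    rw [this]
    exact pick_spec S hS m0 u _

lemma sol_ws (m0 : I) (b : Bool) (ws ms) : (sol S m0 b ws ms ws).2 = ms := by
  match ws with
  | [] => show (if ([] : List (Option N × Bool)) = [] then ms else m0) = ms; simp
  | (none, ε) :: w =>
    show (if ((none, ε) :: w) = ((none, ε) :: w) then ms else m0) = ms; simp
  | (some u, false) :: w =>
    show (if ((some u, false) :: w) = ((some u, false) :: w) then ms else m0) = ms; simp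
  | (some u, true) :: w =>
    show (if ((some u, true) :: w) = ((some u, true) :: w) then ms else _) = ms; simp

/-- below the length of `ws` the solution does not depend on the override -/
lemma sol_congr (m0 : I) (b : Bool) (ws ms ms') (w : List (Option N × Bool))
    (h : w.length < ws.length) : sol S m0 b ws ms w = sol S m0 b ws ms' w := by
  induction w with
  | nil =>
    have h1 : ([] : List (Option N × Bool)) ≠ ws := by rintro rfl; simp at h
    show (b, if [] = ws then ms else m0) = (b, if [] = ws then ms' else m0)
    rw [if_neg h1, if_neg h1]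
  | cons l w ih =>
    have h1 : (l :: w) ≠ ws := by rintro rfl; simp at h
    have ih' := ih (by simp at h; omega)
    obtain ⟨a, ε⟩ := l
    cases a with
    | none =>
      show (!(sol S m0 b ws ms w).1, if ((none, ε) :: w) = ws then ms else m0)
        = (!(sol S m0 b ws ms' w).1, if ((none, ε) :: w) = ws then ms' else m0)
      rw [if_neg h1, if_neg h1, ih']
    | some u =>
      cases ε with
      | false =>
        show (decide ((sol S m0 b ws ms w).2 ∈ S u), if ((some u, false) :: w) = ws then ms else m0)
          = (decide ((sol S m0 b ws ms' w).2 ∈ S u), if ((some u, false) :: w) = ws then ms' else m0)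
        rw [if_neg h1, if_neg h1, ih']
      | true =>
        show (false, if ((some u, true) :: w) = ws then ms else pick S m0 u (sol S m0 b ws ms w).1)
          = (false, if ((some u, true) :: w) = ws then ms' else pick S m0 u (sol S m0 b ws ms' w).1)
        rw [if_neg h1, if_neg h1, ih']

/-- of two different bipartitions at most one of the four intersections is empty -/
lemma atom (hS : ∀ u, (S u).Nonempty ∧ S u ≠ Set.univ)
    (hne : ∀ u v, u ≠ v → S u ≠ S v ∧ S u ≠ (S v)ᶜ) (u v : N) (huv : u ≠ v) (p : Bool → Bool) :
    ∃ b : Bool, ∃ m : I, (m ∈ S u ↔ p b = true) ∧ (m ∈ S v ↔ b = true) := by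
  by_contra hcon
  push Not at hcon
  have h1 := hcon true
  have h0 := hcon false
  obtain ⟨hu1, hu2⟩ := hS u
  obtain ⟨hv1, hv2⟩ := hS v
  obtain ⟨h3, h4⟩ := hne u v huv
  have hv2' := (Set.ne_univ_iff_exists_notMem _).1 hv2
  have hu2' := (Set.ne_univ_iff_exists_notMem _).1 hu2
  obtain ⟨x1, hx1⟩ := hu1
  obtain ⟨x2, hx2⟩ := hu2'
  obtain ⟨y1, hy1⟩ := hv1
  obtain ⟨y2, hy2⟩ := hv2'
  cases e1 : p true <;> cases e0 : p false <;> simp only [e1, e0] at h1 h0
  · -- u false, v true empty ; u false v false empty
    have a1 := h1 x2; have a0 := h0 x2; simp at a1 a0; tauto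
  · -- p true = false, p false = true: (u false, v true) empty, (u true, v false) empty
    apply h3
    ext m
    have a1 := h1 m; have a0 := h0 m; simp at a1 a0; tauto
  · apply h4
    ext m
    have a1 := h1 m; have a0 := h0 m; simp at a1 a0; rw [Set.mem_compl_iff]; tauto
  · have a1 := h1 x1; have a0 := h0 x1; simp at a1 a0; tauto

end Pool.Agent.T9lead.Cong
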