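import Mathlib

/-! A free subgroup of `SL(2,ℝ)` on algebraically independent parameters. -/

set_option autoImplicit false

namespace Pool.Agent.T9lead.Cong

open Matrix Matrix.SpecialLinearGroup UpperHalfPlane
open scoped MatrixGroups Pointwise

/-- a parabolic matrix fixing `x` -/
def gm {R : Type} [CommRing R] (x : R) : SL(2, R) :=
  ⟨!![1 + x, -x ^ 2; 1, 1 - x], by rw [det_fin_two_of]; ring⟩

/-- its inverse -/
def gmi {R : Type} [CommRing R] (x : R) : SL(2, R) :=
  ⟨!![1 - x, x ^ 2; -1, 1 + x], by rw [det_fin_two_of]; ring⟩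

/-- the hyperbolic matrix -/
def hm (R : Type) [CommRing R] [Algebra ℚ R] : SL(2, R) :=
  ⟨!![algebraMap ℚ R 2, 0; 0, algebraMap ℚ R (1 / 2)], by
    rw [det_fin_two_of, ← map_mul]; norm_num⟩

section entries
set_option linter.unusedSectionVars false
variable {R : Type} [CommRing R] [Algebra ℚ R] (x : R)
lemma gm00 : (gm x) 0 0 = 1 + x := rfl
lemma gm01 : (gm x) 0 1 = -x ^ 2 := rfl
lemma gm10 : (gm x) 1 0 = 1 := rfl
lemma gm11 : (gm x) 1 1 = 1 - x := rfl
lemma gmi00 : (gmi x) 0 0 = 1 - x := rfl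
lemma gmi01 : (gmi x) 0 1 = x ^ 2 := rfl
lemma gmi10 : (gmi x) 1 0 = -1 := rfl
lemma gmi11 : (gmi x) 1 1 = 1 + x := rfl
lemma hm00 : (hm R) 0 0 = algebraMap ℚ R 2 := rfl
lemma hm01 : (hm R) 0 1 = 0 := rfl
lemma hm10 : (hm R) 1 0 = 0 := rfl
lemma hm11 : (hm R) 1 1 = algebraMap ℚ R (1 / 2) := rfl
end entries

lemma gm_mul_gmi {R : Type} [CommRing R] (x : R) : gm x * gmi x = 1 := by
  have e : !![1 + x, -x ^ 2; 1, 1 - x] * !![1 - x, x ^ 2; -1, 1 + x] = 1 := by
    rw [Matrix.mul_fin_two, Matrix.one_fin_two]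
    ext i j
    fin_cases i <;> fin_cases j <;> simp <;> ring
  exact Subtype.ext e

lemma gm_inv {R : Type} [CommRing R] (x : R) : (gm x)⁻¹ = gmi x :=
  inv_eq_of_mul_eq_one_right (gm_mul_gmi x)

/-- the family of generators -/
def gen {R N : Type} [CommRing R] [Algebra ℚ R] (x : N → R) : Option N → SL(2, R)
  | none => hm R
  | some u => gm (x u)

/-- the representation -/
def phi {R N : Type} [CommRing R] [Algebra ℚ R] (x : N → R) : FreeGroup (Option N) →* SL(2, R) :=
  FreeGroup.lift (gen x)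

lemma map_entry {R R' : Type} [CommRing R] [CommRing R'] (f : R →+* R') (g : SL(2, R))
    (i j : Fin 2) : (SpecialLinearGroup.map f g) i j = f (g i j) := rfl

lemma phi_map {R R' N : Type} [CommRing R] [Algebra ℚ R] [CommRing R'] [Algebra ℚ R']
    (f : R →ₐ[ℚ] R') (x : N → R) (w : FreeGroup (Option N)) :
    SpecialLinearGroup.map (f : R →+* R') (phi x w) = phi (fun u => f (x u)) w := by
  have : (SpecialLinearGroup.map (f : R →+* R')).comp (phi x) = phi (fun u => f (x u)) := by
    apply FreeGroup.ext_hom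
    intro o
    simp only [MonoidHom.comp_apply, phi, FreeGroup.lift_apply_of]
    cases o with
    | none =>
      ext i j
      rw [map_entry]
      fin_cases i <;> fin_cases j <;>
        simp [gen, hm00, hm01, hm10, hm11]
    | some u =>
      ext i j
      rw [map_entry]
      fin_cases i <;> fin_cases j <;> simp [gen, gm00, gm01, gm10, gm11]
  rw [← this]; rfl

section pingpong

variable {N : Type} (x : N → ℝ) (t : ℝ)

/-- attracting sets -/
def XX : Option N → Set ℍ
  | none => {z | 2 * t ≤ ‖(z : ℂ)‖}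
  | some u => {z | ‖(z : ℂ) - ((x u + 1 : ℝ) : ℂ)‖ < 1}

/-- repelling sets -/
def YY : Option N → Set ℍ
  | none => {z | ‖(z : ℂ)‖ < t / 2}
  | some u => {z | ‖(z : ℂ) - ((x u - 1 : ℝ) : ℂ)‖ ≤ 1}

lemma im_ne (z : ℍ) (r : ℝ) : (z : ℂ) - (r : ℂ) ≠ 0 := by
  intro h
  have := congrArg Complex.im h
  simp at this
  exact absurd this z.im_pos.ne'

lemma gm_apply (x : ℝ) (z : ℍ) :
    ((gm x • z : ℍ) : ℂ) - ((x + 1 : ℝ) : ℂ) = -1 / ((z : ℂ) - ((x - 1 : ℝ) : ℂ)) := by
  have h1 := im_ne z (x - 1)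
  rw [coe_specialLinearGroup_apply]
  simp only [gm00, gm01, gm10, gm11, Algebra.algebraMap_self, RingHom.id_apply] 
  have h2 : (z : ℂ) + (1 - (x : ℂ)) ≠ 0 := by
    intro h; apply h1; push_cast; linear_combination h
  push_cast at h1 ⊢
  rw [one_mul]
  field_simp
  ring

lemma gm_inv_apply (x : ℝ) (z : ℍ) :
    (((gm x)⁻¹ • z : ℍ) : ℂ) - ((x - 1 : ℝ) : ℂ) = -1 / ((z : ℂ) - ((x + 1 : ℝ) : ℂ)) := by
  have h1 := im_ne z (x + 1)
  rw [gm_inv, coe_specialLinearGroup_apply]
  simp only [gmi00, gmi01, gmi10, gmi11, Algebra.algebraMap_self, RingHom.id_apply]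
  have h2 : (1 : ℂ) + (x : ℂ) - (z : ℂ) ≠ 0 := by
    intro h; apply h1; push_cast; linear_combination -h
  push_cast at h1 ⊢
  have h3 : (-1 : ℂ) * (z : ℂ) + (1 + (x : ℂ)) ≠ 0 := by
    intro h; apply h2; linear_combination h
  rw [div_sub' h3, div_eq_div_iff h3 h1]
  ring

lemma hm_apply (z : ℍ) : ((hm ℝ • z : ℍ) : ℂ) = 4 * z := by
  rw [coe_specialLinearGroup_apply]
  simp only [hm00, hm01, hm10, hm11]
  simp
  ring

lemma hm_inv_apply (z : ℍ) : (((hm ℝ)⁻¹ • z : ℍ) : ℂ) = z / 4 := by
  have h := hm_apply ((hm ℝ)⁻¹ • z)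
  rw [smul_inv_smul] at h
  rw [h]; ring

lemma norm_sub_ge (z : ℂ) (r : ℝ) : r - ‖z - (r : ℂ)‖ ≤ ‖z‖ := by
  have h : ‖(r : ℂ)‖ ≤ ‖z‖ + ‖z - (r : ℂ)‖ := by
    calc ‖(r : ℂ)‖ = ‖z - (z - (r : ℂ))‖ := by congr 1; ring
      _ ≤ _ := norm_sub_le _ _
  rw [Complex.norm_real] at h
  have := le_abs_self r
  rw [Real.norm_eq_abs] at h
  linarith

lemma norm_le_of (z : ℂ) (r : ℝ) (hr : 0 ≤ r) : ‖z‖ ≤ r + ‖z - (r : ℂ)‖ := by
  have h : ‖z‖ ≤ ‖(r : ℂ)‖ + ‖z - (r : ℂ)‖ := by
    calc ‖z‖ = ‖(r : ℂ) + (z - (r : ℂ))‖ := by congr 1; ring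
      _ ≤ _ := norm_add_le _ _
  rw [Complex.norm_real, Real.norm_eq_abs, abs_of_nonneg hr] at h
  exact h

lemma abs_sub_le_of (z : ℂ) (r s : ℝ) : |r - s| ≤ ‖z - (r : ℂ)‖ + ‖z - (s : ℂ)‖ := by
  have h : ‖((r - s : ℝ) : ℂ)‖ ≤ ‖z - (s : ℂ)‖ + ‖z - (r : ℂ)‖ := by
    calc ‖((r - s : ℝ) : ℂ)‖ = ‖(z - (s : ℂ)) - (z - (r : ℂ))‖ := by
          congr 1; push_cast; ring
      _ ≤ _ := norm_sub_le _ _
  rw [Complex.norm_real, Real.norm_eq_abs] at h
  linarith

theorem phi_injective_of_sep [Nonempty N] (hsep : ∀ u v, u ≠ v → 4 < |x u - x v|)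
    (hlo : ∀ u, t / 2 + 2 < x u) (hhi : ∀ u, x u < 2 * t - 2) :
    Function.Injective (phi x) := by
  obtain ⟨u0⟩ := ‹Nonempty N›
  have ht : 2 < t := by have := hlo u0; have := hhi u0; linarith
  haveI : Nontrivial (Option N) := ⟨none, some u0, by simp⟩
  have hx : ∀ u, 3 < x u := fun u => by have := hlo u; linarith
  have memX : ∀ u z, z ∈ XX x t (some u) ↔ ‖(z : ℂ) - ((x u + 1 : ℝ) : ℂ)‖ < 1 :=
    fun u z => Iff.rfl
  have memY : ∀ u z, z ∈ YY x t (some u) ↔ ‖(z : ℂ) - ((x u - 1 : ℝ) : ℂ)‖ ≤ 1 :=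
    fun u z => Iff.rfl
  have memX0 : ∀ z, z ∈ XX x t none ↔ 2 * t ≤ ‖(z : ℂ)‖ := fun z => Iff.rfl
  have memY0 : ∀ z, z ∈ YY x t none ↔ ‖(z : ℂ)‖ < t / 2 := fun z => Iff.rfl
  refine FreeGroup.injective_lift_of_ping_pong (gen x) (XX x t) (YY x t) ?_ ?_ ?_ ?_ ?_ ?_
  · intro i
    cases i with
    | none =>
      refine ⟨⟨⟨0, 2 * t⟩, by simp; linarith⟩, ?_⟩
      rw [memX0]
      have := Complex.abs_im_le_norm (⟨0, 2 * t⟩ : ℂ)
      simp only at this
      exact le_trans (le_abs_self _) this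
    | some u =>
      refine ⟨⟨⟨x u + 1, 1 / 2⟩, by simp⟩, ?_⟩
      rw [memX]
      have : ((⟨x u + 1, 1 / 2⟩ : ℂ)) - ((x u + 1 : ℝ) : ℂ) = ((1 / 2 : ℝ) : ℂ) * Complex.I := by
        apply Complex.ext <;> simp
      rw [UpperHalfPlane.coe_mk, this, norm_mul, Complex.norm_I, Complex.norm_real]
      norm_num
  · intro i j hij
    change Disjoint (XX x t i) (XX x t j)
    rw [Set.disjoint_left]
    intro z h1 h2
    cases i with
    | none =>
      cases j with
      | none => exact hij rfl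
      | some u =>
        rw [memX0] at h1
        rw [memX] at h2
        have := norm_le_of z (x u + 1) (by linarith [hx u])
        linarith [hhi u]
    | some u =>
      cases j with
      | none =>
        rw [memX0] at h2
        rw [memX] at h1
        have := norm_le_of z (x u + 1) (by linarith [hx u])
        linarith [hhi u]
      | some v =>
        rw [memX] at h1 h2
        have huv : u ≠ v := fun h => hij (by rw [h])
        have := abs_sub_le_of z (x u + 1) (x v + 1)
        rw [show x u + 1 - (x v + 1) = x u - x v by ring] at this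
        linarith [hsep u v huv]
  · intro i j hij
    change Disjoint (YY x t i) (YY x t j)
    rw [Set.disjoint_left]
    intro z h1 h2
    cases i with
    | none =>
      cases j with
      | none => exact hij rfl
      | some u =>
        rw [memY0] at h1
        rw [memY] at h2
        have := norm_sub_ge z (x u - 1)
        linarith [hlo u]
    | some u =>
      cases j with
      | none =>
        rw [memY0] at h2
        rw [memY] at h1
        have := norm_sub_ge z (x u - 1)
        linarith [hlo u]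
      | some v =>
        rw [memY] at h1 h2
        have huv : u ≠ v := fun h => hij (by rw [h])
        have := abs_sub_le_of z (x u - 1) (x v - 1)
        rw [show x u - 1 - (x v - 1) = x u - x v by ring] at this
        linarith [hsep u v huv]
  · intro i j
    rw [Set.disjoint_left]
    intro z h1 h2
    cases i with
    | none =>
      rw [memX0] at h1
      cases j with
      | none =>
        rw [memY0] at h2
        linarith
      | some u =>
        rw [memY] at h2
        have := norm_le_of z (x u - 1) (by linarith [hx u])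
        linarith [hhi u]
    | some u =>
      rw [memX] at h1
      cases j with
      | none =>
        rw [memY0] at h2
        have := norm_sub_ge z (x u + 1)
        linarith [hlo u]
      | some v =>
        rw [memY] at h2
        have h3 := abs_sub_le_of z (x u + 1) (x v - 1)
        by_cases huv : u = v
        · subst huv
          rw [show x u + 1 - (x u - 1) = 2 by ring, abs_of_pos (by norm_num : (0:ℝ) < 2)] at h3
          linarith
        · have h4 := hsep u v huv
          have h5 : |x u - x v| ≤ |x u + 1 - (x v - 1)| + 2 := by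
            have := abs_sub (x u + 1 - (x v - 1)) 2
            rw [show x u + 1 - (x v - 1) - 2 = x u - x v by ring,
              abs_of_pos (by norm_num : (0:ℝ) < 2)] at this
            exact this
          linarith
  · intro i
    rintro _ ⟨z, hz, rfl⟩
    cases i with
    | none =>
      rw [Set.mem_compl_iff, memY0, not_lt] at hz
      change hm ℝ • z ∈ _
      rw [memX0, hm_apply, norm_mul]
      rw [show ‖(4 : ℂ)‖ = 4 by norm_num]
      linarith
    | some u =>
      rw [Set.mem_compl_iff, memY, not_le] at hz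
      change gm (x u) • z ∈ _
      rw [memX, gm_apply, norm_div, norm_neg, norm_one]
      rw [div_lt_one (by linarith)]
      exact hz
  · intro i
    rintro _ ⟨z, hz, rfl⟩
    cases i with
    | none =>
      rw [Set.mem_compl_iff, memX0, not_le] at hz
      change (hm ℝ)⁻¹ • z ∈ _
      rw [memY0, hm_inv_apply, norm_div]
      rw [show ‖(4 : ℂ)‖ = 4 by norm_num]
      linarith
    | some u =>
      rw [Set.mem_compl_iff, memX, not_lt] at hz
      change (gm (x u))⁻¹ • z ∈ _
      rw [memY, gm_inv_apply, norm_div, norm_neg, norm_one]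
      rw [div_le_one (by linarith)]
      exact hz

end pingpong

end Pool.Agent.T9lead.Cong
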