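import Pool.Agent.T9lead.Cong.Free

/-! Algebraically independent reals and injectivity of `phi`. -/

set_option autoImplicit false

namespace Pool.Agent.T9lead.Cong

open Matrix Matrix.SpecialLinearGroup UpperHalfPlane
open scoped MatrixGroups Pointwise

open Cardinal in
theorem exists_algInd (N : Type) (hN : Cardinal.mk N ≤ Cardinal.continuum) :
    ∃ x : N → ℝ, AlgebraicIndependent ℚ x := by
  obtain ⟨ι, y, hy⟩ := exists_isTranscendenceBasis' ℚ ℝ
  have hι : Nonempty ι := by
    by_contra h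
    rw [not_nonempty_iff] at h
    have h1 := hy.isEmpty_iff_isAlgebraic.1 h
    have h2 := Algebra.IsAlgebraic.cardinalMk_le_max ℚ ℝ
    rw [Cardinal.mk_real] at h2
    simp at h2
    exact absurd h2 (not_le.2 Cardinal.aleph0_lt_continuum)
  have h1 := hy.lift_cardinalMk_eq_max_lift
  simp only [Cardinal.lift_id, Cardinal.mk_real] at h1
  have h2 : Cardinal.continuum ≤ Cardinal.mk ι := by
    by_contra hlt
    rw [not_le] at hlt
    have : max (max (Cardinal.mk ℚ) (Cardinal.mk ι)) Cardinal.aleph0 < Cardinal.continuum := by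
      refine max_lt (max_lt ?_ hlt) Cardinal.aleph0_lt_continuum
      rw [Cardinal.mkRat]
      exact Cardinal.aleph0_lt_continuum
    exact absurd h1 this.ne'
  obtain ⟨e⟩ := Cardinal.le_def N ι |>.1 (hN.trans h2)
  exact ⟨fun n => y (e n), hy.1.comp e e.injective⟩

lemma map_one_of_inj {R R' : Type} [CommRing R] [CommRing R'] (f : R →+* R')
    (hf : Function.Injective f) (g : SL(2, R)) (h : SpecialLinearGroup.map f g = 1) : g = 1 := by
  ext i j
  apply hf
  rw [← map_entry, h]
  fin_cases i <;> fin_cases j <;> simp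

lemma phi_generic {N : Type} (x : N → ℝ) (hx : AlgebraicIndependent ℚ x)
    (w : FreeGroup (Option N)) (h : phi x w = 1) (y : N → ℝ) : phi y w = 1 := by
  have h1 := phi_map (MvPolynomial.aeval x : MvPolynomial N ℚ →ₐ[ℚ] ℝ) MvPolynomial.X w
  simp only [MvPolynomial.aeval_X] at h1
  rw [show (fun u => x u) = x from rfl, h] at h1
  have h2 := map_one_of_inj _ (hx) _ h1
  have h3 := phi_map (MvPolynomial.aeval y : MvPolynomial N ℚ →ₐ[ℚ] ℝ) MvPolynomial.X w
  simp only [MvPolynomial.aeval_X] at h3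
  rw [show (fun u => y u) = y from rfl, h2, map_one] at h3
  exact h3.symm

lemma phi_rename {N M : Type} (f : M → N) (y : N → ℝ) (w : FreeGroup (Option M)) :
    phi y (FreeGroup.map (Option.map f) w) = phi (fun m => y (f m)) w := by
  have : (phi y).comp (FreeGroup.map (Option.map f)) = phi (fun m => y (f m)) := by
    apply FreeGroup.ext_hom
    intro o
    cases o <;> rfl
  rw [← this]; rfl

lemma exists_support {N : Type} [DecidableEq N] (w : FreeGroup (Option N)) :
    ∃ s : Finset N, ∀ s' : Finset N, s ⊆ s' → ∃ w' : FreeGroup (Option s'),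
      FreeGroup.map (Option.map Subtype.val) w' = w := by
  induction w using FreeGroup.induction_on with
  | C1 => exact ⟨∅, fun s' _ => ⟨1, map_one _⟩⟩
  | of o =>
    cases o with
    | none => exact ⟨∅, fun s' _ => ⟨FreeGroup.of none, by simp⟩⟩
    | some u =>
      refine ⟨{u}, fun s' hs' => ⟨FreeGroup.of (some ⟨u, hs' (Finset.mem_singleton_self u)⟩), ?_⟩⟩
      simp
  | inv_of o ih =>
    obtain ⟨s, hs⟩ := ih
    refine ⟨s, fun s' hs' => ?_⟩
    obtain ⟨w', hw'⟩ := hs s' hs'
    exact ⟨w'⁻¹, by rw [map_inv, hw']⟩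
  | mul a b iha ihb =>
    obtain ⟨s, hs⟩ := iha
    obtain ⟨t, ht⟩ := ihb
    refine ⟨s ∪ t, fun s' hs' => ?_⟩
    obtain ⟨a', ha'⟩ := hs s' (Finset.union_subset_left hs')
    obtain ⟨b', hb'⟩ := ht s' (Finset.union_subset_right hs')
    exact ⟨a' * b', by rw [map_mul, ha', hb']⟩

theorem phi_injective {N : Type} [Nonempty N] (x : N → ℝ) (hx : AlgebraicIndependent ℚ x) :
    Function.Injective (phi x) := by
  classical
  rw [injective_iff_map_eq_one]
  intro w hw
  obtain ⟨s, hs⟩ := exists_support w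
  obtain ⟨u0⟩ := ‹Nonempty N›
  obtain ⟨T, hsT, hu0⟩ : ∃ T : Finset N, s ⊆ T ∧ u0 ∈ T :=
    ⟨insert u0 s, Finset.subset_insert _ _, Finset.mem_insert_self _ _⟩
  obtain ⟨w', hw'⟩ := hs T hsT
  have : Nonempty T := ⟨⟨u0, hu0⟩⟩
  let n := T.card
  let e : T ≃ Fin n := T.equivFin
  let t : ℝ := 10 * n + 10
  let y : N → ℝ := fun u => if h : u ∈ T then t + 10 * (e ⟨u, h⟩ : ℕ) else 0
  have hy : ∀ u : T, y u.1 = t + 10 * (e u : ℕ) := fun u => by
    simp only [y, dif_pos u.2]
  have h1 := phi_generic x hx w hw y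
  rw [← hw', phi_rename] at h1
  have hinj : Function.Injective (phi (fun m : T => y m.1)) := by
    apply phi_injective_of_sep (x := fun m : T => y m.1) (t := t)
    · intro u v huv
      simp only [hy]
      have h2 : (e u : ℕ) ≠ (e v : ℕ) := fun h => huv (e.injective (Fin.ext h))
      rcases lt_or_gt_of_ne h2 with h3 | h3
      · have h4 : ((e u : ℕ) : ℝ) + 1 ≤ ((e v : ℕ) : ℝ) := by exact_mod_cast h3
        rw [abs_sub_comm, abs_of_nonneg (by linarith)]
        linarith
      · have h4 : ((e v : ℕ) : ℝ) + 1 ≤ ((e u : ℕ) : ℝ) := by exact_mod_cast h3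
        rw [abs_of_nonneg (by linarith)]
        linarith
    · intro u
      simp only [hy]
      have h5 : (0 : ℝ) ≤ ((e u : ℕ) : ℝ) := Nat.cast_nonneg _
      have h6 : (0 : ℝ) ≤ (n : ℝ) := Nat.cast_nonneg _
      simp only [t]
      linarith
    · intro u
      simp only [hy]
      have h5 : ((e u : ℕ) : ℝ) + 1 ≤ (n : ℝ) := by exact_mod_cast (e u).2
      simp only [t]
      linarith
  have h2 : w' = 1 := hinj (by rw [h1, map_one])
  rw [← hw', h2, map_one]

end Pool.Agent.T9lead.Cong
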